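import Mathlib
import Pool.Agent.Helper4.Sun.Final

set_option autoImplicit false

namespace Pool.Agent.Results.MP_683361_nt.FullSupercongruence

open Finset

/-- `binom x k = x (x-1) ⋯ (x-k+1) / k!`. -/
def binom (x : ℚ) (k : ℕ) : ℚ := (∏ i ∈ range k, (x - i)) / (k.factorial : ℚ)

/-- `S p = ∑_{k<p} binom(-1/2,k) binom(-1/6,k) (-3/125)^k`. -/
def S (p : ℕ) : ℚ := ∑ k ∈ range p, binom (-1/2) k * binom (-1/6) k * (-3/125)^k

/-- `x ≡ y (mod p^e)` in the ring of rationals with denominator prime to `p` (`p` prime). -/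
def CongrMod (p e : ℕ) (x y : ℚ) : Prop :=
  ¬ p ∣ x.den ∧ ¬ p ∣ y.den ∧ ∃ q : ℚ, ¬ p ∣ q.den ∧ x - y = (p : ℚ)^e * q

open Pool.Agent.Helper4.Sun in
lemma binom_eq (x : ℚ) (k : ℕ) : binom (-x) k = (-1)^k * rf x k / (k.factorial : ℚ) := by
  unfold binom rf
  congr 1
  rw [show ((-1:ℚ))^k = ∏ i ∈ range k, (-1:ℚ) by simp, ← prod_mul_distrib]
  apply prod_congr rfl
  intro i _
  ring

open Pool.Agent.Helper4.Sun in
lemma S_eq (p : ℕ) : S p = PD (1/2) (1/6) 1 1 (-3/125) p := by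
  unfold S PD hd
  apply sum_congr rfl
  intro k _
  rw [show (-1/2 : ℚ) = -(1/2) by norm_num, show (-1/6 : ℚ) = -(1/6) by norm_num,
    binom_eq, binom_eq, rf_one]
  have h2 : ((-1 : ℚ)^k)^2 = 1 := by rw [← pow_mul, mul_comm, pow_mul]; simp
  have h3 : (k.factorial : ℚ) ≠ 0 := by positivity
  field_simp
  linear_combination (rf (1/2) k * rf (1/6) k) * h2

open Pool.Agent.Helper4.Sun in
lemma congr_of_red {p : ℕ} (hp : p.Prime) (e : ℕ) (he : e ≠ 0) {x y : ℚ} {r : ZMod (p^e)}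
    (hx : Red (p^e) x r) (hy : Red (p^e) y r) : CongrMod p e x y := by
  refine ⟨Red.den hp e he hx, Red.den hp e he hy, ?_⟩
  have h := hx.sub hy
  rw [sub_self] at h
  exact Red.cong hp e he h

/-- Full answer to the problem: for every prime `p > 5`.
If `p ≡ 1 (mod 3)` then `p = A^2 + 3 B^2` for some integers, and for all such `A`, `B` one has
`S p ≡ 2A - p/(2A) (mod p^2)` for `A` or for `-A`.
If `p ≡ 2 (mod 3)` then `S p ≡ 0 (mod p)`. -/
theorem result (p : ℕ) (hp : p.Prime) (h5 : 5 < p) :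
    (p % 3 = 1 →
      (∃ A B : ℤ, (p : ℤ) = A^2 + 3*B^2) ∧
      ∀ A B : ℤ, (p : ℤ) = A^2 + 3*B^2 →
        CongrMod p 2 (S p) (2*(A:ℚ) - p/(2*(A:ℚ))) ∨
        CongrMod p 2 (S p) (2*(-(A:ℚ)) - p/(2*(-(A:ℚ))))) ∧
    (p % 3 = 2 → CongrMod p 1 (S p) 0) := by
  have : Fact p.Prime := ⟨hp⟩
  have hodd : p % 2 = 1 := by
    rcases hp.eq_two_or_odd with h | h
    · omega
    · exact h
  rw [S_eq]
  constructor
  · intro h3
    obtain ⟨A₀, B₀, hAB, r, s, hs, hr, hsr⟩ :=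
      Pool.Agent.Helper4.Sun.case1 p (p/6) h5 (by omega)
    refine ⟨⟨A₀, B₀, hAB⟩, ?_⟩
    intro A B h
    have hneg : Pool.Agent.Helper4.Sun.Red (p^2) (2*(-(A₀:ℚ)) - p/(2*(-(A₀:ℚ)))) (-r) := by
      have := hr.neg
      rw [show -(2*(A₀:ℚ) - p/(2*(A₀:ℚ))) = 2*(-(A₀:ℚ)) - p/(2*(-(A₀:ℚ))) by
        rw [mul_neg, div_neg]; ring] at this
      exact this
    rcases Pool.Agent.Helper4.Sun.unique_rep p hp A₀ B₀ A B hAB h with hA | hA
    · rw [hA]
      rcases hsr with h' | h'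
      · left; rw [h'] at hs; exact congr_of_red hp 2 two_ne_zero hs hr
      · right; rw [h'] at hs; exact congr_of_red hp 2 two_ne_zero hs hneg
    · rw [hA]
      push_cast
      rw [neg_neg]
      rcases hsr with h' | h'
      · right; rw [h'] at hs; exact congr_of_red hp 2 two_ne_zero hs hr
      · left; rw [h'] at hs; exact congr_of_red hp 2 two_ne_zero hs hneg
  · intro h3
    have h := Pool.Agent.Helper4.Sun.case2 p (p/6) h5 (by omega)
    have e : p^1 = p := pow_one p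
    apply congr_of_red hp 1 one_ne_zero (r := 0)
    · rw [e]; exact h
    · exact Pool.Agent.Helper4.Sun.Red.zero

end Pool.Agent.Results.MP_683361_nt.FullSupercongruence
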